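import Pool.Agent.LGO.SM.Alg

/-!
# MP_d83ecd_ag: every curve in `Y(1)ⁿ` and all special subvarieties, up to exceptional points
-/

namespace Pool.Agent.Results.MP_d83ecd_ag.EveryCurve

open UpperHalfPlane Pool.Agent.Hhelper14.ZP Pool.Agent.LGO

/-- `S` has at most `K` elements in `[X, exp (X ^ (1 / K))]`, for every `X ≥ 1` -/
def VerySparse (K : ℕ) (S : Set ℕ) : Prop :=
  ∀ X : ℝ, 1 ≤ X → {N ∈ S | X ≤ (N : ℝ) ∧ (N : ℝ) ≤ Real.exp (X ^ (1 / (K : ℝ)))}.encard ≤ K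

/-- The triple `y` of isogenous numbers is exceptional.  With `N a b` the minimal degree of an isogeny between the
elliptic curves with `j`-invariants `y a` and `y b`: all `N a b`, `a ≠ b`, are in `S`; for an order `a, b, c` of the
indices there are primes `p, q ≥ 1 / ε` with `p ∣ N a b ≤ p ^ (1 + ε)`, `q ∣ N a c ≤ q ^ (1 + ε)`,
`p q ∣ N b c ≤ (p q) ^ (1 + ε)`, `p ≤ q ^ (1 + ε)`, `q ≤ p ^ (1 + ε)`; the numbers `y a` are algebraic and the degree of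
the number field generated by `y` is at most `N a b ^ ε` for all `a ≠ b`. -/
def ExcTriple (S : Set ℕ) (ε : ℝ) (y : Fin 3 → ℂ) : Prop :=
  (∀ a b, a ≠ b → mdeg (y a) (y b) ∈ S) ∧
  (∃ (a b c : Fin 3) (p q : ℕ), a ≠ b ∧ a ≠ c ∧ b ≠ c ∧ p.Prime ∧ q.Prime ∧
    1 / ε ≤ (p : ℝ) ∧ 1 / ε ≤ (q : ℝ) ∧
    p ∣ mdeg (y a) (y b) ∧ q ∣ mdeg (y a) (y c) ∧ p * q ∣ mdeg (y b) (y c) ∧
    (mdeg (y a) (y b) : ℝ) ≤ (p : ℝ) ^ (1 + ε) ∧ (mdeg (y a) (y c) : ℝ) ≤ (q : ℝ) ^ (1 + ε) ∧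
    (mdeg (y b) (y c) : ℝ) ≤ ((p : ℝ) * q) ^ (1 + ε) ∧ (p : ℝ) ≤ (q : ℝ) ^ (1 + ε) ∧
    (q : ℝ) ≤ (p : ℝ) ^ (1 + ε)) ∧
  (∀ a, IsAlgebraic ℚ (y a)) ∧
  ∀ a b, a ≠ b → (Module.finrank ℚ (IntermediateField.adjoin ℚ (Set.range y)) : ℝ) ≤
    (mdeg (y a) (y b) : ℝ) ^ ε

/-- The two isogenous pairs `y 0, y 1` and `y 2, y 3` are exceptional.  With `N` and `M` the minimal degrees of an
isogeny of the first and of the second pair: `N ≥ 1 / ε`, `M ≤ max(e, N / e) ^ (2 + ε)` for every divisor `e` of `N`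
(so `M ≤ N ^ (2 + ε)`), the numbers `y a` are algebraic and the degree of the number field generated by `y` is at most
`N ^ ε`. -/
def ExcPairs (ε : ℝ) (y : Fin 4 → ℂ) : Prop :=
  1 / ε ≤ (mdeg (y 0) (y 1) : ℝ) ∧
  (∀ e : ℕ, e ∣ mdeg (y 0) (y 1) →
    (mdeg (y 2) (y 3) : ℝ) ≤ ((max e (mdeg (y 0) (y 1) / e) : ℕ) : ℝ) ^ (2 + ε)) ∧
  (∀ a, IsAlgebraic ℚ (y a)) ∧
  (Module.finrank ℚ (IntermediateField.adjoin ℚ (Set.range y)) : ℝ) ≤ (mdeg (y 0) (y 1) : ℝ) ^ ε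

/-- The point `x` is exceptional: no coordinate is a singular modulus, no five coordinates are isogenous, there are
three isogenous coordinates or two disjoint pairs of isogenous coordinates, any three isogenous coordinates are an
exceptional triple, and any two disjoint pairs of isogenous coordinates are exceptional. -/
def ExcPoint {n : ℕ} (S : Set ℕ) (ε : ℝ) (x : Fin n → ℂ) : Prop :=
  (∀ k, ∀ τ : ℍ, jInv τ = x k → ¬ IsCM τ) ∧
  (∀ i : Fin 5 → Fin n, Function.Injective i → ¬ ∀ a b, HeckeRel (x (i a)) (x (i b))) ∧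
  ((∃ i : Fin 3 → Fin n, Function.Injective i ∧ ∀ a b, HeckeRel (x (i a)) (x (i b))) ∨
    ∃ i : Fin 4 → Fin n, Function.Injective i ∧ HeckeRel (x (i 0)) (x (i 1)) ∧ HeckeRel (x (i 2)) (x (i 3))) ∧
  (∀ i : Fin 3 → Fin n, Function.Injective i → (∀ a b, HeckeRel (x (i a)) (x (i b))) →
    ExcTriple S ε (fun a => x (i a))) ∧
  ∀ i : Fin 4 → Fin n, Function.Injective i → HeckeRel (x (i 0)) (x (i 1)) → HeckeRel (x (i 2)) (x (i 3)) →
    ExcPairs ε (fun a => x (i a))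

/-- **Every curve in `Y(1)ⁿ`.** Let `V ⊆ Y(1)ⁿ = ℂⁿ` be any irreducible curve over `ℂ`. There is a very sparse set
`S` of natural numbers such that for every `ε > 0` there are finitely many proper special subvarieties such that every
atypical component of the intersection of `V` with any special subvariety `Z` lies in one of them, or `dim Z ≥ n / 4`
and the component is an exceptional point. -/
theorem result {n : ℕ} {V : Set (Fin n → ℂ)} (hV : IsIrredClosed V) (hdim : dim V = 1) :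
    ∃ (K : ℕ) (S : Set ℕ), 0 < K ∧ VerySparse K S ∧ ∀ ε : ℝ, 0 < ε →
      ∃ F : Set (Set (Fin n → ℂ)), F.Finite ∧ (∀ T ∈ F, IsSpecial T ∧ T ≠ Set.univ) ∧
        ∀ Z, IsSpecial Z → ∀ C, IsComponent C (V ∩ Z) → dim Z + dim V < dim C + n →
          (∃ T ∈ F, C ⊆ T) ∨ n ≤ 4 * dim Z ∧ ∃ x : Fin n → ℂ, C = {x} ∧ ExcPoint S ε x := by
  obtain ⟨K, S, hK, hS, h⟩ := Pool.Agent.LGO.SM.main_all' hV hdim
  refine ⟨K, S, hK, hS, fun ε hε => ?_⟩
  obtain ⟨F, h1, h2, h3⟩ := h ε hε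
  refine ⟨F, h1, h2, fun Z hZ C hC hd => ?_⟩
  rcases h3 Z hZ C hC hd with h4 | ⟨x, hx, hCx⟩
  · exact Or.inl h4
  · obtain ⟨hx, hA3, hA4⟩ := hx
    have hxZ : x ∈ Z := (hC.2.1 (hCx ▸ Set.mem_singleton x)).2
    have h9 := hx.dim_le hZ hxZ
    obtain ⟨h5, h10, h6, h7, h8⟩ := hx
    refine Or.inr ⟨by exact_mod_cast h9, x, hCx, fun k => h5 k, h10, h6, fun i hi hI => ?_, fun i hi h01 h23 => ?_⟩
    · obtain ⟨e1, e2, e3⟩ := h7 i hi hI
      exact ⟨e1, e2, hA3 i hi hI, e3⟩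
    · obtain ⟨e1, e2, e3⟩ := (h8 i hi h01 h23).1
      exact ⟨e1, e2, hA4 i hi h01 h23, e3⟩

end Pool.Agent.Results.MP_d83ecd_ag.EveryCurve
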