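import Pool.Agent.LGO.LK.LnkC

/-!
# MP_d83ecd_ag: the Zilber-Pink conjecture for curves over `ℂ` in `Y(1)ⁿ` with linked coordinates
-/

namespace Pool.Agent.Results.MP_d83ecd_ag.LinkedCurves

open MvPolynomial Pool.Agent.Hhelper14.ZPL Pool.Agent.LGO Pool.Agent.LGO.FC Pool.Agent.LGO.LK

/-- **The Zilber-Pink conjecture for curves with linked coordinates.** Let `V ⊆ Y(1)ⁿ = ℂⁿ` be an irreducible curve
(over `ℂ`, any genus, constant coordinates allowed), and let `cp i V` be the Zariski closure of the projection of
`V` to the coordinates `i`. Assume:
(3) for every three nonconstant coordinates `i` such that `C = cp i V` is defined over the algebraic numbers there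
are two of the three coordinates, `a ≠ b`, which are linked on `C` (`LnkC C a b`: a common pole, or different degrees,
or pole divisors which differ by a torsion class, or a point at infinity where one of `x_a`, `x_b` is infinite and the
other one a singular modulus), or such that `C` has a point at infinity with `x_a = ∞` and the two other coordinates
finite and isogenous (`IsoInf`), or `C` has a point at infinity with `x_a = ∞` and the two other coordinates finite and
totally real, and another one for `b` (`RealInf1`);
(4) for every four nonconstant coordinates `i` such that `C = cp i V` is defined over the algebraic numbers, the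
first two or the last two are linked on `C`.
Then finitely many proper special subvarieties contain all atypical intersections of `V` with special
subvarieties. -/
theorem result {n : ℕ} {V : Set (Fin n → ℂ)} (hV : Pool.Agent.Hhelper14.ZPL.IsIrredClosed V)
    (hdim : Pool.Agent.Hhelper14.ZPL.dim V = 1)
    (h3 : ∀ i : Fin 3 → Fin n, Function.Injective i → (∀ a, ∀ c : ℂ, ∃ x ∈ V, x (i a) ≠ c) →
      KClosed (cp i V) → ∃ a b : Fin 3, a ≠ b ∧ (LnkC (cp i V) a b ∨
        IsoInf (cp i V) a ∨ (RealInf1 (cp i V) a ∧ RealInf1 (cp i V) b)))
    (h4 : ∀ i : Fin 4 → Fin n, Function.Injective i → (∀ a, ∀ c : ℂ, ∃ x ∈ V, x (i a) ≠ c) →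
      KClosed (cp i V) → LnkC (cp i V) 0 1 ∨ LnkC (cp i V) 2 3) :
    Pool.Agent.ZPE.FinAtypical V :=
  main_gen hV hdim (fun i hi hc hk => triP_allC hk (h3 i hi hc hk.kcl))
    fun i hi hc hk => qdP_lnkC hk (h4 i hi hc hk.kcl)

end Pool.Agent.Results.MP_d83ecd_ag.LinkedCurves
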