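import Pool.Agent.ZPE.Trans

/-!
# MP_d83ecd_ag: Zilber-Pink for the translates of every subvariety of `Y(1)ⁿ` by all `p`-adically
large elements of `PGL₂(ℂ)ⁿ`
-/

namespace Pool.Agent.Results.MP_d83ecd_ag.PadicTranslates

open Pool.Agent.Hhelper14.ZP Pool.Agent.ZPE MvPolynomial

/-- **For every irreducible subvariety `V` of `Y(1)ⁿ`, the translate of `V` by the element
`(y_i ↦ β_i + α_i / (y_i - γ_i))_i` of `PGL₂(ℂ)ⁿ` satisfies the Zilber-Pink conjecture as soon as
all `β_i` are large at one prime.**  More precisely, for `α_i ≠ 0` and `γ` outside a hypersurface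
`F = 0` there are an integer `M ≥ 1` and for every prime `p` an embedding `σ_p` of `ℂ` into `ℂ_p`
such that for all `β ∈ ℂⁿ` with `|M σ_p(β_i)| > 1` for all `i` and some `p` (for example `β ∈ ℚⁿ`
with `v_p(M β_i) < 0` for all `i`) the translate is irreducible of dimension `dim V`, and finitely
many proper special subvarieties contain all its atypical intersections with special
subvarieties. -/
theorem result {n : ℕ} {V : Set (Fin n → ℂ)} (hV : IsIrredClosed V) :
    ∃ F : MvPolynomial (Fin n) ℂ, F ≠ 0 ∧ ∀ α γ : Fin n → ℂ, (∀ i, α i ≠ 0) → eval γ F ≠ 0 →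
      ∃ (M : ℕ) (σ : (p : ℕ) → [Fact p.Prime] → ℂ →+* PadicComplex p), 0 < M ∧
        ∀ (p : ℕ) [Fact p.Prime] (β : Fin n → ℂ),
          (∀ i, 1 < ‖(M : PadicComplex p) * σ p (β i)‖) →
          IsIrredClosed (pglTranslateC α β γ V) ∧ dim (pglTranslateC α β γ V) = dim V ∧
            FinAtypical (pglTranslateC α β γ V) :=
  finAtypical_translates hV

end Pool.Agent.Results.MP_d83ecd_ag.PadicTranslates
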