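import Pool.Agent.ZPD.Main

/-!
# MP_d83ecd_ag: Zilber-Pink for almost all rational translates of every subvariety of `Y(1)ⁿ`
-/

namespace Pool.Agent.Results.MP_d83ecd_ag.RationalTranslates

open Pool.Agent.Hhelper14.ZP Pool.Agent.ZPD

/-- **For every irreducible subvariety `V` of `Y(1)ⁿ`, 100 percent of the translates of `V` by
`PGL₂(ℚ)ⁿ` have no atypical intersection with a special subvariety.** The elements
`(y_i ↦ β_i + α_i / (y_i - γ_i))_i` of `PGL₂(ℚ)ⁿ` are ordered by the height of the point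
`(α, β, γ)` of `ℚ³ⁿ`. -/
theorem result {n : ℕ} (hn : 0 < n) {V : Set (Fin n → ℂ)} (hV : IsIrredClosed V) :
    Filter.Tendsto (fun H : ℕ =>
      (Set.ncard {q ∈ ratPoints (Fin n × Fin 3) H | GoodTranslate V q} : ℝ) /
        (Set.ncard (ratPoints (Fin n × Fin 3) H) : ℝ)) Filter.atTop (nhds 1) :=
  tendsto_good hn hV

end Pool.Agent.Results.MP_d83ecd_ag.RationalTranslates
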